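import Mathlib

/-!
# Triangle graphs from constraint systems

A general construction of graphs that are triangle graphs exactly when a constraint satisfaction
instance has no solution.
-/

namespace Pool.Agent.Helper91.Triangle

/-- The triangle condition: for every maximal stable set `S` and every edge `uv` outside `S`, some
vertex of `S` is adjacent to both ends. -/
def IsTriangleGraph {V : Type*} (G : SimpleGraph V) : Prop :=
  ∀ S : Set V, Maximal G.IsIndepSet S → ∀ u v : V, G.Adj u v → u ∉ S → v ∉ S →
    ∃ s ∈ S, G.Adj s u ∧ G.Adj s v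

/-- The six kinds of vertices; each stands for a set of the three worlds `0`, `1`, `2`. -/
inductive Kind
  | w012 | w01 | w02 | w0 | w1 | w2
  deriving DecidableEq

instance : Fintype Kind :=
  ⟨{Kind.w012, Kind.w01, Kind.w02, Kind.w0, Kind.w1, Kind.w2}, by intro x; cases x <;> decide⟩

/-- Does the kind contain the world? -/
def Kind.mem : Kind → Fin 3 → Bool
  | .w012, _ => true
  | .w01, j => decide (j = 0) || decide (j = 1)
  | .w02, j => decide (j = 0) || decide (j = 2)
  | .w0, j => decide (j = 0)
  | .w1, j => decide (j = 1)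
  | .w2, j => decide (j = 2)

/-- Do the two kinds share a world? -/
def Kind.meets (k l : Kind) : Prop := ∃ j : Fin 3, k.mem j = true ∧ l.mem j = true

instance (k l : Kind) : Decidable (k.meets l) := by unfold Kind.meets; infer_instance

lemma Kind.meets_self (k : Kind) : k.meets k := by revert k; decide

lemma Kind.meets_comm (k l : Kind) : k.meets l ↔ l.meets k := by
  unfold Kind.meets; exact exists_congr fun j => and_comm

lemma exists_kind₁ : ∀ (j : Fin 3) (a b : Kind), a.mem j = false → b.mem j = false →
    ¬ a.meets b → ∃ k : Kind, k ≠ Kind.w012 ∧ k.mem j = true ∧ ¬ k.meets a ∧ ¬ k.meets b := by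
  decide

lemma exists_kind₂ : ∀ (j : Fin 3) (a : Kind), a.mem j = false →
    ∃ k : Kind, k ≠ Kind.w012 ∧ k ≠ Kind.w0 ∧ k.mem j = true ∧ ¬ k.meets a := by
  decide

lemma w012_mem : ∀ j : Fin 3, Kind.w012.mem j = true := by decide

/-- Two partial assignments conflict if they give different values to some variable. -/
def Conflict {ι D : Type*} (p q : ι → Option D) : Prop :=
  ∃ y d e, p y = some d ∧ q y = some e ∧ d ≠ e

/-- The assignment `α` extends the partial assignment `p`. -/
def Agrees {ι D : Type*} (p : ι → Option D) (α : ι → D) : Prop :=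
  ∀ y d, p y = some d → α y = d

lemma not_agrees {ι D : Type*} {p : ι → Option D} {α : ι → D} (h : ¬ Agrees p α) :
    ∃ y d, p y = some d ∧ α y ≠ d := by
  unfold Agrees at h
  push Not at h
  exact h

lemma not_conflict_of_agrees {ι D : Type*} {p q : ι → Option D} {α : ι → D}
    (hp : Agrees p α) (hq : Agrees q α) : ¬ Conflict p q := by
  rintro ⟨y, d, e, h1, h2, hne⟩
  exact hne ((hp y d h1).symm.trans (hq y e h2))

/-- The graph on a vertex set whose vertices carry a kind and a partial assignment: two vertices
are adjacent if their kinds share no world or their partial assignments conflict. -/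
def graph {ι D V : Type*} (kind : V → Kind) (pat : V → ι → Option D) : SimpleGraph V where
  Adj v w := ¬ (kind v).meets (kind w) ∨ Conflict (pat v) (pat w)
  symm := ⟨by
    rintro v w (h | ⟨y, d, e, h1, h2, hne⟩)
    · left; rwa [Kind.meets_comm]
    · right; exact ⟨y, e, d, h2, h1, hne.symm⟩⟩
  loopless := ⟨by
    rintro v (h | ⟨y, d, e, h1, h2, hne⟩)
    · exact h (Kind.meets_self _)
    · rw [h1] at h2
      exact hne (Option.some_injective _ h2)⟩

section main

variable {ι D V : Type*} (kind : V → Kind) (pat : V → ι → Option D)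

/-- The set of vertices that contain the point `(j, α)`. -/
def star (j : Fin 3) (α : ι → D) : Set V := {v | (kind v).mem j = true ∧ Agrees (pat v) α}

lemma star_indep (j : Fin 3) (α : ι → D) : (graph kind pat).IsIndepSet (star kind pat j α) := by
  intro v hv w hw _ hadj
  rcases hadj with h | h
  · exact h ⟨j, hv.1, hw.1⟩
  · exact not_conflict_of_agrees hv.2 hw.2 h

lemma indep_subset_star [Nonempty D] {S : Set V} (hS : (graph kind pat).IsIndepSet S) :
    ∃ (j : Fin 3) (α : ι → D), S ⊆ star kind pat j α := by
  classical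
  have hmeets : ∀ v ∈ S, ∀ w ∈ S, (kind v).meets (kind w) := by
    intro v hv w hw
    by_cases h : v = w
    · rw [h]; exact Kind.meets_self _
    · by_contra hc
      exact hS hv hw h (Or.inl hc)
  have hconf : ∀ v ∈ S, ∀ w ∈ S, ¬ Conflict (pat v) (pat w) := by
    intro v hv w hw hc
    by_cases h : v = w
    · subst h
      obtain ⟨y, d, e, h1, h2, hne⟩ := hc
      rw [h1] at h2
      exact hne (Option.some_injective _ h2)
    · exact hS hv hw h (Or.inr hc)
  have hj : ∃ j : Fin 3, ∀ v ∈ S, (kind v).mem j = true := by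
    by_cases h0 : ∃ v ∈ S, kind v = Kind.w0
    · obtain ⟨v, hv, hk⟩ := h0
      refine ⟨0, fun w hw => ?_⟩
      have := hmeets v hv w hw
      rw [hk] at this
      revert this
      generalize kind w = k
      revert k; decide
    by_cases h1 : ∃ v ∈ S, kind v = Kind.w1
    · obtain ⟨v, hv, hk⟩ := h1
      refine ⟨1, fun w hw => ?_⟩
      have := hmeets v hv w hw
      rw [hk] at this
      revert this
      generalize kind w = k
      revert k; decide
    by_cases h2 : ∃ v ∈ S, kind v = Kind.w2
    · obtain ⟨v, hv, hk⟩ := h2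
      refine ⟨2, fun w hw => ?_⟩
      have := hmeets v hv w hw
      rw [hk] at this
      revert this
      generalize kind w = k
      revert k; decide
    refine ⟨0, fun w hw => ?_⟩
    have a0 : kind w ≠ Kind.w0 := fun h => h0 ⟨w, hw, h⟩
    have a1 : kind w ≠ Kind.w1 := fun h => h1 ⟨w, hw, h⟩
    have a2 : kind w ≠ Kind.w2 := fun h => h2 ⟨w, hw, h⟩
    revert a0 a1 a2
    generalize kind w = k
    revert k; decide
  obtain ⟨j, hj⟩ := hj
  refine ⟨j, fun y => if h : ∃ d, ∃ v ∈ S, pat v y = some d then h.choose
    else Classical.arbitrary D, fun v hv => ⟨hj v hv, ?_⟩⟩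
  intro y d hd
  have hex : ∃ d, ∃ v ∈ S, pat v y = some d := ⟨d, v, hv, hd⟩
  simp only [dif_pos hex]
  obtain ⟨w, hw, hwd⟩ := hex.choose_spec
  by_contra hne
  exact hconf w hw v hv ⟨y, _, _, hwd, hd, hne⟩

lemma maximal_eq_star [Nonempty D] {S : Set V} (hS : Maximal (graph kind pat).IsIndepSet S) :
    ∃ (j : Fin 3) (α : ι → D), S = star kind pat j α := by
  obtain ⟨j, α, h⟩ := indep_subset_star kind pat hS.prop
  exact ⟨j, α, hS.eq_of_subset (star_indep kind pat j α) h⟩

variable [Nonempty ι] [Nonempty D]
  (hfull : ∀ (α : ι → D) (y z : ι), ∃ v, kind v = Kind.w012 ∧ Agrees (pat v) α ∧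
    pat v y = some (α y) ∧ pat v z = some (α z))
  (hone : ∀ k : Kind, k ≠ Kind.w012 → k ≠ Kind.w0 → ∀ (α : ι → D) (y : ι),
    ∃ v, kind v = k ∧ Agrees (pat v) α ∧ pat v y = some (α y))

include hfull hone

/-- The main equivalence: the graph satisfies the triangle condition if and only if every
assignment extends the partial assignment of some vertex of kind `w0`. -/
theorem isTriangleGraph_iff :
    IsTriangleGraph (graph kind pat) ↔
      ∀ α : ι → D, ∃ v, kind v = Kind.w0 ∧ Agrees (pat v) α := by
  constructor
  · intro hT α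
    by_contra hno
    push Not at hno
    obtain ⟨y₀⟩ := ‹Nonempty ι›
    -- the star of `(0, α)` is a maximal stable set
    have hmax : Maximal (graph kind pat).IsIndepSet (star kind pat 0 α) := by
      refine ⟨star_indep kind pat 0 α, ?_⟩
      intro T hT hsub v hv
      by_contra hvn
      by_cases hag : Agrees (pat v) α
      · have hk : (kind v).mem 0 = false := by
          by_contra h
          exact hvn ⟨by simpa using h, hag⟩
        -- `v` has kind `w1` or `w2`
        obtain ⟨a, ha1, ha2, ha3⟩ := hone Kind.w02 (by decide) (by decide) α y₀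
        obtain ⟨b, hb1, hb2, hb3⟩ := hone Kind.w01 (by decide) (by decide) α y₀
        have ha : a ∈ star kind pat 0 α := ⟨by rw [ha1]; decide, ha2⟩
        have hb : b ∈ star kind pat 0 α := ⟨by rw [hb1]; decide, hb2⟩
        have hva : v ≠ a := fun h => hvn (h ▸ ha)
        have hvb : v ≠ b := fun h => hvn (h ▸ hb)
        have h1 := hT hv (hsub ha) hva
        have h2 := hT hv (hsub hb) hvb
        have h1' : (kind v).meets (kind a) := by
          by_contra h; exact h1 (Or.inl h)
        have h2' : (kind v).meets (kind b) := by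
          by_contra h; exact h2 (Or.inl h)
        rw [ha1] at h1'
        rw [hb1] at h2'
        revert hk h1' h2'
        generalize kind v = k
        revert k; decide
      · obtain ⟨y, d, hd, hne⟩ := not_agrees hag
        obtain ⟨a, ha1, ha2, ha3, -⟩ := hfull α y y
        have ha : a ∈ star kind pat 0 α := ⟨by rw [ha1]; decide, ha2⟩
        have hva : v ≠ a := fun h => hvn (h ▸ ha)
        exact hT hv (hsub ha) hva (Or.inr ⟨y, d, α y, hd, ha3, hne.symm⟩)
    obtain ⟨a, ha1, ha2, -⟩ := hone Kind.w1 (by decide) (by decide) α y₀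
    obtain ⟨b, hb1, hb2, -⟩ := hone Kind.w2 (by decide) (by decide) α y₀
    have hab : (graph kind pat).Adj a b := by
      left; rw [ha1, hb1]; decide
    have haS : a ∉ star kind pat 0 α := by
      rintro ⟨h, -⟩; rw [ha1] at h; revert h; decide
    have hbS : b ∉ star kind pat 0 α := by
      rintro ⟨h, -⟩; rw [hb1] at h; revert h; decide
    obtain ⟨s, hs, hsa, hsb⟩ := hT _ hmax a b hab haS hbS
    have h1 : ¬ (kind s).meets (kind a) := by
      rcases hsa with h | h
      · exact h
      · exact absurd h (not_conflict_of_agrees hs.2 ha2)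
    have h2 : ¬ (kind s).meets (kind b) := by
      rcases hsb with h | h
      · exact h
      · exact absurd h (not_conflict_of_agrees hs.2 hb2)
    rw [ha1] at h1
    rw [hb1] at h2
    have h3 : kind s = Kind.w0 := by
      have h0 := hs.1
      revert h0 h1 h2
      generalize kind s = k
      revert k; decide
    exact hno s h3 hs.2
  · intro hα S hS u v huv huS hvS
    obtain ⟨j, α, rfl⟩ := maximal_eq_star kind pat hS
    obtain ⟨y₀⟩ := ‹Nonempty ι›
    by_cases hu : Agrees (pat u) α
    · have hku : (kind u).mem j = false := by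
        by_contra h
        exact huS ⟨by simpa using h, hu⟩
      by_cases hv : Agrees (pat v) α
      · -- both agree with `α`
        have hkv : (kind v).mem j = false := by
          by_contra h
          exact hvS ⟨by simpa using h, hv⟩
        have hmeet : ¬ (kind u).meets (kind v) := by
          rcases huv with h | h
          · exact h
          · exact absurd h (not_conflict_of_agrees hu hv)
        obtain ⟨k, hk0, hk1, hk2, hk3⟩ := exists_kind₁ j _ _ hku hkv hmeet
        by_cases hkw : k = Kind.w0
        · obtain ⟨c, hc1, hc2⟩ := hα α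
          refine ⟨c, ⟨by rw [hc1, ← hkw]; exact hk1, hc2⟩, Or.inl ?_, Or.inl ?_⟩
          · rw [hc1, ← hkw]; exact hk2
          · rw [hc1, ← hkw]; exact hk3
        · obtain ⟨c, hc1, hc2, -⟩ := hone k hk0 hkw α y₀
          refine ⟨c, ⟨by rw [hc1]; exact hk1, hc2⟩, Or.inl ?_, Or.inl ?_⟩
          · rw [hc1]; exact hk2
          · rw [hc1]; exact hk3
      · -- `u` agrees with `α` and `v` does not
        obtain ⟨z, e, he, hne⟩ := not_agrees hv
        obtain ⟨k, hk0, hkw, hk1, hk2⟩ := exists_kind₂ j _ hku
        obtain ⟨c, hc1, hc2, hc3⟩ := hone k hk0 hkw α z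
        refine ⟨c, ⟨by rw [hc1]; exact hk1, hc2⟩, Or.inl ?_, Or.inr ⟨z, α z, e, hc3, he, hne⟩⟩
        rw [hc1]; exact hk2
    · obtain ⟨y, d, hd, hne⟩ := not_agrees hu
      by_cases hv : Agrees (pat v) α
      · have hkv : (kind v).mem j = false := by
          by_contra h
          exact hvS ⟨by simpa using h, hv⟩
        obtain ⟨k, hk0, hkw, hk1, hk2⟩ := exists_kind₂ j _ hkv
        obtain ⟨c, hc1, hc2, hc3⟩ := hone k hk0 hkw α y
        refine ⟨c, ⟨by rw [hc1]; exact hk1, hc2⟩, Or.inr ⟨y, α y, d, hc3, hd, hne⟩, Or.inl ?_⟩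
        rw [hc1]; exact hk2
      · obtain ⟨z, e, he, hne'⟩ := not_agrees hv
        obtain ⟨c, hc1, hc2, hc3, hc4⟩ := hfull α y z
        refine ⟨c, ⟨by rw [hc1]; exact w012_mem j, hc2⟩, Or.inr ⟨y, α y, d, hc3, hd, hne⟩,
          Or.inr ⟨z, α z, e, hc4, he, hne'⟩⟩

end main

end Pool.Agent.Helper91.Triangle
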