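import Mathlib

/-!
# The work function algorithm for the `k`-server problem

We prove that the work function algorithm is `(2k-1)`-competitive for the `k`-server problem in
every metric space (Koutsoupias and Papadimitriou).
-/

open Finset Function

namespace Pool.Agent.Helper91.KServer

variable {M : Type*} [MetricSpace M] {k : ℕ}

/-- Total distance moved between two labelled configurations. -/
noncomputable def mv (X Y : Fin k → M) : ℝ := ∑ i, dist (X i) (Y i)

/-- The configuration which is `X` on `S` and `Z` outside `S`. -/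
def mix (S : Finset (Fin k)) (X Z : Fin k → M) : Fin k → M := fun i => if i ∈ S then X i else Z i

/-- The properties of work functions used in the analysis. -/
structure IsWF (w : (Fin k → M) → ℝ) : Prop where
  symm : ∀ (X : Fin k → M) (π : Equiv.Perm (Fin k)), w (X ∘ π) = w X
  lip : ∀ (X : Fin k → M) (j : Fin k) (y : M), w X ≤ w (update X j y) + dist (X j) y
  qc : ∀ X Y : Fin k → M, ∃ π : Equiv.Perm (Fin k), ∀ S : Finset (Fin k),
    w (mix S X (Y ∘ π)) + w (mix Sᶜ X (Y ∘ π)) ≤ w X + w Y

lemma mv_nonneg (X Y : Fin k → M) : 0 ≤ mv X Y := Finset.sum_nonneg fun _ _ => dist_nonneg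

lemma mv_self (X : Fin k → M) : mv X X = 0 := by simp [mv]

lemma mv_comm (X Y : Fin k → M) : mv X Y = mv Y X := by
  unfold mv; exact Finset.sum_congr rfl fun _ _ => dist_comm _ _

lemma mv_triangle (X Y Z : Fin k → M) : mv X Z ≤ mv X Y + mv Y Z := by
  unfold mv
  rw [← Finset.sum_add_distrib]
  exact Finset.sum_le_sum fun _ _ => dist_triangle _ _ _

lemma mv_update (X : Fin k → M) (j : Fin k) (y : M) : mv X (update X j y) = dist (X j) y := by
  unfold mv
  rw [Finset.sum_eq_single j]
  · simp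
  · intro i _ hi
    rw [update_of_ne hi, dist_self]
  · intro h; exact absurd (Finset.mem_univ j) h

lemma IsWF.lip_mv {w : (Fin k → M) → ℝ} (hw : IsWF w) (X Y : Fin k → M) :
    w X ≤ w Y + mv X Y := by
  classical
  have key : ∀ S : Finset (Fin k), w X ≤ w (mix S Y X) + ∑ i ∈ S, dist (X i) (Y i) := by
    intro S
    induction S using Finset.induction_on with
    | empty =>
      have : mix ∅ Y X = X := by funext i; simp [mix]
      rw [this]; simp
    | insert a S ha ih =>
      rw [Finset.sum_insert ha]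
      have h1 := hw.lip (mix S Y X) a (Y a)
      have h2 : mix S Y X a = X a := by simp [mix, ha]
      have h3 : update (mix S Y X) a (Y a) = mix (insert a S) Y X := by
        funext i
        by_cases hi : i = a
        · subst hi; simp [mix]
        · rw [update_of_ne hi]; simp [mix, hi]
      rw [h2, h3] at h1
      linarith
  have h := key Finset.univ
  have h2 : mix Finset.univ Y X = Y := by funext i; simp [mix]
  rw [h2] at h
  exact h

/-- A single exchange. -/
lemma IsWF.exchange {w : (Fin k → M) → ℝ} (hw : IsWF w) (X Y : Fin k → M) (i : Fin k) :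
    ∃ j, w (update X i (Y j)) + w (update Y j (X i)) ≤ w X + w Y := by
  classical
  obtain ⟨π, hπ⟩ := hw.qc X Y
  refine ⟨π i, ?_⟩
  have h := hπ {i}
  have h1 : mix {i} X (Y ∘ π) = (update Y (π i) (X i)) ∘ π := by
    funext j
    by_cases hj : j = i
    · subst hj; simp [mix]
    · have : π j ≠ π i := fun h => hj (π.injective h)
      simp [mix, hj, update_of_ne this]
  have h2 : mix ({i}ᶜ) X (Y ∘ π) = update X i (Y (π i)) := by
    funext j
    by_cases hj : j = i
    · subst hj; simp [mix]
    · simp [mix, hj]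
  rw [h1, h2, hw.symm] at h
  linarith

section upd

variable [NeZero k]

/-- The updated work function after request `r`. -/
noncomputable def upd (w : (Fin k → M) → ℝ) (r : M) (X : Fin k → M) : ℝ :=
  Finset.univ.inf' Finset.univ_nonempty (fun j => w (update X j r) + dist (X j) r)

lemma upd_le (w : (Fin k → M) → ℝ) (r : M) (X : Fin k → M) (j : Fin k) :
    upd w r X ≤ w (update X j r) + dist (X j) r :=
  Finset.inf'_le _ (Finset.mem_univ j)

lemma exists_upd_eq (w : (Fin k → M) → ℝ) (r : M) (X : Fin k → M) :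
    ∃ j, upd w r X = w (update X j r) + dist (X j) r := by
  obtain ⟨j, -, hj⟩ := Finset.exists_mem_eq_inf' (Finset.univ_nonempty (α := Fin k))
    (fun j => w (update X j r) + dist (X j) r)
  exact ⟨j, hj⟩

lemma IsWF.le_upd {w : (Fin k → M) → ℝ} (hw : IsWF w) (r : M) (X : Fin k → M) :
    w X ≤ upd w r X := by
  obtain ⟨j, hj⟩ := exists_upd_eq w r X
  rw [hj]; exact hw.lip X j r

lemma IsWF.upd_of_mem {w : (Fin k → M) → ℝ} (hw : IsWF w) {r : M} {X : Fin k → M} {j : Fin k}
    (hj : X j = r) : upd w r X = w X := by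
  apply le_antisymm _ (hw.le_upd r X)
  have := upd_le w r X j
  rwa [← hj, update_eq_self, dist_self, add_zero, hj] at this

lemma upd_symm_le {w : (Fin k → M) → ℝ} (hw : IsWF w) (r : M) (X : Fin k → M)
    (π : Equiv.Perm (Fin k)) : upd w r (X ∘ π) ≤ upd w r X := by
  obtain ⟨j, hj⟩ := exists_upd_eq w r X
  rw [hj]
  have h := upd_le w r (X ∘ π) (π.symm j)
  have h1 : update (X ∘ π) (π.symm j) r = (update X j r) ∘ π := by
    funext i
    by_cases hi : i = π.symm j
    · subst hi; simp
    · have : π i ≠ j := fun h => hi (by rw [← h]; simp)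
      rw [update_of_ne hi]
      simp [update_of_ne this]
  rw [h1, hw.symm] at h
  simpa using h

omit [NeZero k] in
/-- Making a bijection fix a common point. -/
lemma qc_fix {w : (Fin k → M) → ℝ} (hw : IsWF w) (X Y : Fin k → M) (a : Fin k) (r : M)
    (hX : X a = r) (hY : Y a = r) : ∃ π : Equiv.Perm (Fin k), π a = a ∧
      ∀ S : Finset (Fin k), w (mix S X (Y ∘ π)) + w (mix Sᶜ X (Y ∘ π)) ≤ w X + w Y := by
  classical
  obtain ⟨π, hπ⟩ := hw.qc X Y
  -- the index sent to `a`
  set e := π.symm a with he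
  have hπe : π e = a := by simp [he]
  refine ⟨(Equiv.swap a e).trans π, by simp [hπe], ?_⟩
  -- the new second configuration
  have hZ' : (Y ∘ ((Equiv.swap a e).trans π)) = (Y ∘ π) ∘ (Equiv.swap a e) := by
    funext i; simp
  rw [hZ']
  set Z := Y ∘ π with hZ
  have hZe : Z e = r := by simp [hZ, hπe, hY]
  -- one implication, from which the other case follows by complementation
  have key : ∀ S : Finset (Fin k), a ∈ S →
      w (mix S X (Z ∘ (Equiv.swap a e))) + w (mix Sᶜ X (Z ∘ (Equiv.swap a e))) ≤ w X + w Y := by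
    intro S haS
    by_cases heS : e ∈ S
    · have h1 : mix S X (Z ∘ (Equiv.swap a e)) = mix S X Z := by
        funext i
        by_cases hi : i ∈ S
        · simp [mix, hi]
        · have hia : i ≠ a := fun h => hi (h ▸ haS)
          have hie : i ≠ e := fun h => hi (h ▸ heS)
          simp [mix, hi, Equiv.swap_apply_of_ne_of_ne hia hie]
      have h2 : mix Sᶜ X (Z ∘ (Equiv.swap a e)) = (mix Sᶜ X Z) ∘ (Equiv.swap a e) := by
        funext i
        by_cases hia : i = a
        · subst hia; simp [mix, haS, heS]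
        by_cases hie : i = e
        · rw [hie]; simp [mix, haS, heS]
        simp [mix, Equiv.swap_apply_of_ne_of_ne hia hie]
      rw [h1, h2, hw.symm]
      exact hπ S
    · have hae : a ≠ e := fun h => heS (h ▸ haS)
      have h1 : mix S X (Z ∘ (Equiv.swap a e)) = (mix (S.erase a) X Z) ∘ (Equiv.swap a e) := by
        funext i
        by_cases hia : i = a
        · subst hia; simp [mix, haS, heS, hX, hZe]
        by_cases hie : i = e
        · rw [hie]; simp [mix, heS]
        simp [mix, Equiv.swap_apply_of_ne_of_ne hia hie, hia]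
      have h2 : mix Sᶜ X (Z ∘ (Equiv.swap a e)) = mix (S.erase a)ᶜ X Z := by
        funext i
        by_cases hia : i = a
        · subst hia; simp [mix, haS, hX, hZe]
        by_cases hie : i = e
        · rw [hie]; simp [mix, heS]
        simp [mix, Equiv.swap_apply_of_ne_of_ne hia hie, hia]
      rw [h1, h2, hw.symm]
      exact hπ _
  intro S
  by_cases haS : a ∈ S
  · exact key S haS
  · have h := key Sᶜ (by simpa using haS)
    rw [compl_compl] at h
    linarith

lemma IsWF.upd {w : (Fin k → M) → ℝ} (hw : IsWF w) (r : M) : IsWF (upd w r) := by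
  classical
  have hsymm : ∀ (X : Fin k → M) (π : Equiv.Perm (Fin k)),
      KServer.upd w r (X ∘ π) = KServer.upd w r X := by
    intro X π
    apply le_antisymm (upd_symm_le hw r X π)
    have := upd_symm_le hw r (X ∘ π) π.symm
    have h2 : (X ∘ π) ∘ π.symm = X := by funext i; simp
    rwa [h2] at this
  refine ⟨hsymm, ?_, ?_⟩
  · intro X j y
    obtain ⟨i, hi⟩ := exists_upd_eq w r (update X j y)
    rw [hi]
    by_cases hij : i = j
    · subst hij
      have := upd_le w r X i
      simp only [update_idem, update_self] at *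
      have h3 := dist_triangle (X i) y r
      linarith
    · have h1 := upd_le w r X i
      have h2 := hw.lip (update X i r) j y
      rw [update_of_ne (Ne.symm hij), update_comm hij] at h2
      rw [update_of_ne hij]
      linarith
  · intro X Y
    obtain ⟨a, ha⟩ := exists_upd_eq w r X
    obtain ⟨b, hb⟩ := exists_upd_eq w r Y
    -- permute `Y` such that the served index is `a`
    set Y' := Y ∘ (Equiv.swap a b) with hY'
    have hY'a : Y' a = Y b := by simp [hY']
    have hupd : update Y' a r = (update Y b r) ∘ (Equiv.swap a b) := by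
      funext i
      by_cases hia : i = a
      · subst hia; simp
      by_cases hib : i = b
      · subst hib
        have : a ≠ i := fun h => hia h.symm
        rw [update_of_ne hia]
        simp [hY', update_of_ne this]
      rw [update_of_ne hia]
      simp [hY', Equiv.swap_apply_of_ne_of_ne hia hib, update_of_ne hib]
    have hb' : KServer.upd w r Y = w (update Y' a r) + dist (Y' a) r := by
      rw [hb, hupd, hw.symm, hY'a]
    obtain ⟨π, hπa, hπ⟩ := qc_fix hw (update X a r) (update Y' a r) a r (by simp) (by simp)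
    refine ⟨π.trans (Equiv.swap a b), ?_⟩
    have hcomp : Y ∘ (π.trans (Equiv.swap a b)) = Y' ∘ π := by funext i; simp [hY']
    rw [hcomp]
    -- one case
    have key : ∀ S : Finset (Fin k), a ∈ S →
        KServer.upd w r (mix S X (Y' ∘ π)) + KServer.upd w r (mix Sᶜ X (Y' ∘ π)) ≤
          KServer.upd w r X + KServer.upd w r Y := by
      intro S haS
      have h := hπ S
      have e1 : mix S (update X a r) (update Y' a r ∘ π) = update (mix S X (Y' ∘ π)) a r := by
        funext i
        by_cases hia : i = a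
        · subst hia; simp [mix, haS]
        · have hpi : π i ≠ a := fun h => hia (π.injective (h.trans hπa.symm))
          simp [mix, hia, update_of_ne hpi]
      have e2 : mix Sᶜ (update X a r) (update Y' a r ∘ π) = update (mix Sᶜ X (Y' ∘ π)) a r := by
        funext i
        by_cases hia : i = a
        · subst hia; simp [mix, haS, hπa]
        · have hpi : π i ≠ a := fun h => hia (π.injective (h.trans hπa.symm))
          simp [mix, hia, update_of_ne hpi]
      rw [e1, e2] at h
      have u1 := upd_le w r (mix S X (Y' ∘ π)) a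
      have u2 := upd_le w r (mix Sᶜ X (Y' ∘ π)) a
      have v1 : mix S X (Y' ∘ π) a = X a := by simp [mix, haS]
      have v2 : mix Sᶜ X (Y' ∘ π) a = Y' a := by simp [mix, haS, hπa]
      rw [v1] at u1
      rw [v2] at u2
      rw [ha, hb']
      linarith
    intro S
    by_cases haS : a ∈ S
    · exact key S haS
    · have h := key Sᶜ (by simpa using haS)
      rw [compl_compl] at h
      linarith

/-- The initial work function: the cost of a cheapest matching with the initial configuration. -/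
noncomputable def wf0 (X₀ X : Fin k → M) : ℝ :=
  Finset.univ.inf' Finset.univ_nonempty (fun π : Equiv.Perm (Fin k) => mv (X₀ ∘ π) X)

omit [NeZero k] in
lemma wf0_le (X₀ X : Fin k → M) (π : Equiv.Perm (Fin k)) : wf0 X₀ X ≤ mv (X₀ ∘ π) X :=
  Finset.inf'_le _ (Finset.mem_univ π)

omit [NeZero k] in
lemma exists_wf0_eq (X₀ X : Fin k → M) : ∃ π : Equiv.Perm (Fin k), wf0 X₀ X = mv (X₀ ∘ π) X := by
  obtain ⟨π, -, hπ⟩ := Finset.exists_mem_eq_inf' (Finset.univ_nonempty (α := Equiv.Perm (Fin k)))
    (fun π : Equiv.Perm (Fin k) => mv (X₀ ∘ π) X)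
  exact ⟨π, hπ⟩

omit [NeZero k] in
lemma mv_comp (X Y : Fin k → M) (π : Equiv.Perm (Fin k)) : mv (X ∘ π) (Y ∘ π) = mv X Y := by
  unfold mv
  exact Equiv.sum_comp π (fun i => dist (X i) (Y i))

omit [NeZero k] in
lemma isWF_wf0 (X₀ : Fin k → M) : IsWF (wf0 X₀) := by
  classical
  have hle : ∀ (X : Fin k → M) (π : Equiv.Perm (Fin k)), wf0 X₀ (X ∘ π) ≤ wf0 X₀ X := by
    intro X π
    obtain ⟨σ, hσ⟩ := exists_wf0_eq X₀ X
    rw [hσ, ← mv_comp (X₀ ∘ σ) X π]
    exact wf0_le X₀ (X ∘ π) (π.trans σ)
  refine ⟨?_, ?_, ?_⟩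
  · intro X π
    apply le_antisymm (hle X π)
    have := hle (X ∘ π) π.symm
    have h2 : (X ∘ π) ∘ π.symm = X := by funext i; simp
    rwa [h2] at this
  · intro X j y
    obtain ⟨σ, hσ⟩ := exists_wf0_eq X₀ (update X j y)
    rw [hσ]
    have h1 := wf0_le X₀ X σ
    have h2 := mv_triangle (X₀ ∘ σ) (update X j y) X
    rw [mv_comm (update X j y) X, mv_update] at h2
    linarith
  · intro X Y
    obtain ⟨σ, hσ⟩ := exists_wf0_eq X₀ X
    obtain ⟨τ, hτ⟩ := exists_wf0_eq X₀ Y
    refine ⟨σ.trans τ.symm, fun S => ?_⟩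
    have hY : mv (X₀ ∘ τ) Y = mv (X₀ ∘ σ) (Y ∘ (σ.trans τ.symm)) := by
      rw [← mv_comp (X₀ ∘ τ) Y (σ.trans τ.symm)]
      congr 1
      funext i; simp
    rw [hσ, hτ, hY]
    set Z := Y ∘ (σ.trans τ.symm)
    have h1 := wf0_le X₀ (mix S X Z) σ
    have h2 := wf0_le X₀ (mix Sᶜ X Z) σ
    have h3 : mv (X₀ ∘ σ) (mix S X Z) + mv (X₀ ∘ σ) (mix Sᶜ X Z) =
        mv (X₀ ∘ σ) X + mv (X₀ ∘ σ) Z := by
      unfold mv
      rw [← Finset.sum_add_distrib, ← Finset.sum_add_distrib]
      refine Finset.sum_congr rfl fun i _ => ?_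
      by_cases hi : i ∈ S
      · simp [mix, hi]
      · simp [mix, hi, add_comm]
    linarith

end upd

section analysis

variable [NeZero k]

/-- Sum of distances from a point to a configuration. -/
noncomputable def sd (r : M) (X : Fin k → M) : ℝ := ∑ i, dist r (X i)

omit [NeZero k] in
lemma sd_nonneg (r : M) (X : Fin k → M) : 0 ≤ sd r X := Finset.sum_nonneg fun _ _ => dist_nonneg

omit [NeZero k] in
lemma sd_update (r : M) (X : Fin k → M) (j : Fin k) (y : M) :
    sd r (update X j y) = sd r X - dist r (X j) + dist r y := by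
  classical
  unfold sd
  rw [← Finset.add_sum_erase _ _ (Finset.mem_univ j),
    ← Finset.add_sum_erase Finset.univ (fun i => dist r (X i)) (Finset.mem_univ j)]
  have : ∑ x ∈ Finset.univ.erase j, dist r (update X j y x) =
      ∑ x ∈ Finset.univ.erase j, dist r (X x) := by
    refine Finset.sum_congr rfl fun i hi => ?_
    rw [update_of_ne (Finset.ne_of_mem_erase hi)]
  rw [this]
  simp
  ring

omit [NeZero k] in
lemma sd_le (r s : M) (X : Fin k → M) : sd s X ≤ sd r X + k * dist s r := by
  unfold sd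
  have : ∑ i : Fin k, dist s (X i) ≤ ∑ i : Fin k, (dist r (X i) + dist s r) :=
    Finset.sum_le_sum fun i _ => by
      have := dist_triangle s r (X i); linarith
  rw [Finset.sum_add_distrib] at this
  simpa using this

/-- `A` is a minimiser of `w` with respect to `r` among configurations in `P`. -/
def IsMinr (P : Set M) (w : (Fin k → M) → ℝ) (r : M) (A : Fin k → M) : Prop :=
  (∀ i, A i ∈ P) ∧ ∀ X : Fin k → M, (∀ i, X i ∈ P) → w A - sd r A ≤ w X - sd r X

omit [NeZero k] in
lemma update_mem {P : Set M} {X : Fin k → M} (hX : ∀ i, X i ∈ P) (j : Fin k) {y : M}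
    (hy : y ∈ P) : ∀ i, update X j y i ∈ P := by
  intro i
  by_cases h : i = j
  · subst h; simpa using hy
  · rw [update_of_ne h]; exact hX i

/-- Duality, first part: a minimiser stays a minimiser. -/
lemma duality₁ {P : Set M} {w : (Fin k → M) → ℝ} (hw : IsWF w) {r : M} {A : Fin k → M}
    (hA : IsMinr P w r A) : IsMinr P (upd w r) r A := by
  refine ⟨hA.1, fun B hB => ?_⟩
  obtain ⟨b, hb⟩ := exists_upd_eq w r B
  obtain ⟨a, ha⟩ := hw.exchange (update B b r) A b
  simp only [update_self, update_idem] at ha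
  -- `ha : w (update B b (A a)) + w (update A a r) ≤ w (update B b r) + w A`
  have h1 := hA.2 (update B b (A a)) (update_mem hB b (hA.1 a))
  rw [sd_update] at h1
  have h2 := upd_le w r A a
  have h3 : dist (A a) r = dist r (A a) := dist_comm _ _
  have h4 : dist (B b) r = dist r (B b) := dist_comm _ _
  rw [hb]
  linarith

/-- Duality, second part: the extended cost is attained at a minimiser. -/
lemma duality₂ {P : Set M} {w : (Fin k → M) → ℝ} (hw : IsWF w) {r : M} {A : Fin k → M}
    (hA : IsMinr P w r A) (B : Fin k → M) (hB : ∀ i, B i ∈ P) :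
    upd w r B - w B ≤ upd w r A - w A := by
  obtain ⟨a, ha⟩ := exists_upd_eq w r A
  obtain ⟨b, hb⟩ := hw.exchange (update A a r) B a
  simp only [update_self, update_idem] at hb
  have h1 := hA.2 (update A a (B b)) (update_mem hA.1 a (hB b))
  rw [sd_update] at h1
  have h2 := upd_le w r B b
  have h3 : dist (A a) r = dist r (A a) := dist_comm _ _
  have h4 : dist (B b) r = dist r (B b) := dist_comm _ _
  rw [ha]
  linarith

/-- The value whose minimum is the potential. -/
noncomputable def val (w : (Fin k → M) → ℝ) (U : Fin k → M) (B : Fin k → Fin k → M) : ℝ :=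
  k * w U + ∑ i, (w (B i) - sd (U i) (B i))

/-- `(U, B)` attains the potential of `w` over configurations in `P`. -/
def IsPot (P : Set M) (w : (Fin k → M) → ℝ) (v : ℝ) : Prop :=
  (∃ (U : Fin k → M) (B : Fin k → Fin k → M), (∀ i, U i ∈ P) ∧ (∀ i j, B i j ∈ P) ∧
    val w U B = v) ∧
  ∀ (U : Fin k → M) (B : Fin k → Fin k → M), (∀ i, U i ∈ P) → (∀ i j, B i j ∈ P) →
    v ≤ val w U B

omit [NeZero k] in
lemma exists_isMinr {P : Set M} (hP : P.Finite) (hne : P.Nonempty) (w : (Fin k → M) → ℝ) (r : M) :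
    ∃ A, IsMinr P w r A := by
  have : Finite P := hP
  have : Nonempty P := hne.to_subtype
  obtain ⟨A, hA⟩ := Finite.exists_min (fun A : Fin k → P =>
    w (fun i => (A i : M)) - sd r (fun i => (A i : M)))
  refine ⟨fun i => A i, fun i => (A i).2, fun X hX => ?_⟩
  exact hA (fun i => ⟨X i, hX i⟩)

omit [NeZero k] in
lemma exists_isPot {P : Set M} (hP : P.Finite) (hne : P.Nonempty) (w : (Fin k → M) → ℝ) :
    ∃ v, IsPot P w v := by
  have : Finite P := hP
  have : Nonempty P := hne.to_subtype
  obtain ⟨A, hA⟩ := Finite.exists_min (fun A : (Fin k → P) × (Fin k → Fin k → P) =>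
    val w (fun i => (A.1 i : M)) (fun i j => (A.2 i j : M)))
  refine ⟨_, ⟨_, _, fun i => (A.1 i).2, fun i j => (A.2 i j).2, rfl⟩, fun U B hU hB => ?_⟩
  exact hA (fun i => ⟨U i, hU i⟩, fun i j => ⟨B i j, hB i j⟩)

/-- The potential increases at least by the extended cost. -/
lemma pot_step {P : Set M} (hP : P.Finite) (hne : P.Nonempty) {w : (Fin k → M) → ℝ} (hw : IsWF w)
    {r : M} (hr : r ∈ P) {v v' : ℝ} (hv : IsPot P w v) (hv' : IsPot P (upd w r) v')
    (X : Fin k → M) (hX : ∀ i, X i ∈ P) : upd w r X - w X ≤ v' - v := by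
  classical
  obtain ⟨⟨U, B, hU, hB, hval⟩, -⟩ := hv'
  have hw' := hw.upd r
  -- move one element of `U` to `r`
  obtain ⟨a, ha⟩ := exists_upd_eq w r U
  have hUa : upd w r (update U a r) = w (update U a r) := hw.upd_of_mem (update_self a r U)
  set U' := update U a r with hU'
  have hU'P : ∀ i, U' i ∈ P := update_mem hU a hr
  obtain ⟨A, hA⟩ := exists_isMinr hP hne w r
  have hA' := duality₁ hw hA
  -- the new tuple of configurations
  set B' := update B a A with hB'
  have hB'P : ∀ i j, B' i j ∈ P := by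
    intro i j
    by_cases h : i = a
    · subst h; rw [hB', update_self]; exact hA.1 j
    · rw [hB', update_of_ne h]; exact hB i j
  -- the value for `w` of the new tuple is at least `v`
  have h1 := hv.2 U' B' hU'P hB'P
  -- split off the index `a` in both values
  have split : ∀ (u : (Fin k → M) → ℝ) (U : Fin k → M) (B : Fin k → Fin k → M),
      val u U B = k * u U + ((u (B a) - sd (U a) (B a)) +
        ∑ i ∈ Finset.univ.erase a, (u (B i) - sd (U i) (B i))) := by
    intro u U B
    unfold val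
    rw [← Finset.add_sum_erase _ _ (Finset.mem_univ a)]
  rw [split] at h1 hval
  have e1 : U' a = r := update_self _ _ _
  have e2 : B' a = A := update_self _ _ _
  rw [e1, e2] at h1
  have e3 : ∑ i ∈ Finset.univ.erase a, (w (B' i) - sd (U' i) (B' i)) ≤
      ∑ i ∈ Finset.univ.erase a, (upd w r (B i) - sd (U i) (B i)) := by
    refine Finset.sum_le_sum fun i hi => ?_
    have hia := Finset.ne_of_mem_erase hi
    rw [hU', hB', update_of_ne hia, update_of_ne hia]
    have := hw.le_upd r (B i)
    linarith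
  -- the term with index `a`
  have h2 := hA'.2 (B a) (hB a)
  have h3 := sd_le r (U a) (B a)
  have h4 := duality₂ hw hA X hX
  have hk : (0 : ℝ) ≤ k := Nat.cast_nonneg k
  rw [ha] at hval
  nlinarith [hval, h1, e3, h2, h3, h4, hk]

end analysis

section algorithm

variable [NeZero k]

/-- The work function after the requests of a history (newest request first). -/
noncomputable def wf (X₀ : Fin k → M) : List M → (Fin k → M) → ℝ
  | [] => wf0 X₀
  | r :: h => upd (wf X₀ h) r

lemma isWF_wf (X₀ : Fin k → M) : ∀ h : List M, IsWF (wf X₀ h)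
  | [] => isWF_wf0 X₀
  | r :: h => (isWF_wf X₀ h).upd r

/-- The server chosen by the work function algorithm; a server standing at the request has
priority. -/
noncomputable def serve (w : (Fin k → M) → ℝ) (r : M) (X : Fin k → M) : Fin k :=
  open Classical in
  if h : ∃ j, X j = r then h.choose else (exists_upd_eq w r X).choose

lemma serve_of_mem (w : (Fin k → M) → ℝ) {r : M} {X : Fin k → M} (h : ∃ j, X j = r) :
    X (serve w r X) = r := by
  unfold serve
  rw [dif_pos h]
  exact h.choose_spec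

lemma serve_spec {w : (Fin k → M) → ℝ} (hw : IsWF w) (r : M) (X : Fin k → M) :
    upd w r X = w (update X (serve w r X) r) + dist (X (serve w r X)) r := by
  by_cases h : ∃ j, X j = r
  · have h1 := serve_of_mem w h
    rw [hw.upd_of_mem h1, h1, dist_self, add_zero]
    have h2 : update X (serve w r X) r = X := by
      funext i
      by_cases hi : i = serve w r X
      · rw [hi, update_self, h1]
      · rw [update_of_ne hi]
    rw [h2]
  · unfold serve
    rw [dif_neg h]
    exact (exists_upd_eq w r X).choose_spec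

/-- The configurations of the work function algorithm. -/
noncomputable def wfa (X₀ : Fin k → M) : List M → (Fin k → M)
  | [] => X₀
  | r :: h => update (wfa X₀ h) (serve (wf X₀ h) r (wfa X₀ h)) r

/-- The cost of the work function algorithm. -/
noncomputable def wfaCost (X₀ : Fin k → M) : List M → ℝ
  | [] => 0
  | r :: h => wfaCost X₀ h + mv (wfa X₀ h) (wfa X₀ (r :: h))

/-- `Sched X₀ h X c`: some schedule starting in `X₀` serves the history `h` (newest request first),
ends in `X` and has cost `c`. -/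
inductive Sched (X₀ : Fin k → M) : List M → (Fin k → M) → ℝ → Prop
  | nil : Sched X₀ [] X₀ 0
  | cons {h : List M} {X : Fin k → M} {c : ℝ} {r : M} {Y : Fin k → M} :
      Sched X₀ h X c → (∃ i, Y i = r) → Sched X₀ (r :: h) Y (c + mv X Y)

lemma wf_le_of_sched {X₀ : Fin k → M} {h : List M} {X : Fin k → M} {c : ℝ}
    (hs : Sched X₀ h X c) : wf X₀ h X ≤ c := by
  induction hs with
  | nil =>
    have := wf0_le X₀ X₀ (Equiv.refl _)
    have h2 : mv (X₀ ∘ (Equiv.refl (Fin k))) X₀ = 0 := mv_self X₀
    change wf0 X₀ X₀ ≤ 0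
    linarith
  | @cons h X c r Y hs hY ih =>
    obtain ⟨i, hi⟩ := hY
    have hw := isWF_wf X₀ h
    change upd (wf X₀ h) r Y ≤ _
    rw [hw.upd_of_mem hi]
    have := hw.lip_mv Y X
    rw [mv_comm] at this
    linarith

lemma exists_sched (X₀ : Fin k → M) : ∀ (h : List M) (X : Fin k → M),
    ∃ (Z : Fin k → M) (c : ℝ) (π : Equiv.Perm (Fin k)),
      Sched X₀ h Z c ∧ c + mv Z (X ∘ π) ≤ wf X₀ h X
  | [], X => by
    obtain ⟨σ, hσ⟩ := exists_wf0_eq X₀ X
    refine ⟨X₀, 0, σ.symm, Sched.nil, ?_⟩
    change 0 + _ ≤ wf0 X₀ X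
    rw [hσ, ← mv_comp (X₀ ∘ σ) X σ.symm]
    have : (X₀ ∘ σ) ∘ σ.symm = X₀ := by funext i; simp
    rw [this]; simp
  | r :: h, X => by
    obtain ⟨j, hj⟩ := exists_upd_eq (wf X₀ h) r X
    obtain ⟨Z, c, π, hs, hle⟩ := exists_sched X₀ h (update X j r)
    refine ⟨(update X j r) ∘ π, c + mv Z ((update X j r) ∘ π), π,
      Sched.cons hs ⟨π.symm j, by simp⟩, ?_⟩
    change _ ≤ upd (wf X₀ h) r X
    rw [hj, mv_comp, mv_comm (update X j r) X, mv_update]
    linarith

/-- The additive constant of the analysis. -/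
noncomputable def addConst (X₀ : Fin k → M) : ℝ := ∑ i, ∑ j, dist (X₀ i) (X₀ j)

omit [NeZero k] in
lemma addConst_nonneg (X₀ : Fin k → M) : 0 ≤ addConst X₀ :=
  Finset.sum_nonneg fun _ _ => Finset.sum_nonneg fun _ _ => dist_nonneg

omit [NeZero k] in
lemma le_pot_init {P : Set M} (X₀ : Fin k → M) {v : ℝ} (hv : IsPot P (wf0 X₀) v) :
    -addConst X₀ ≤ v := by
  obtain ⟨⟨U, B, -, -, rfl⟩, -⟩ := hv
  unfold val
  obtain ⟨σ, hσ⟩ := exists_wf0_eq X₀ U
  have hterm : ∀ i, sd (U i) (B i) ≤
      k * dist (X₀ (σ i)) (U i) + (∑ j, dist (X₀ (σ i)) (X₀ j)) + wf0 X₀ (B i) := by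
    intro i
    obtain ⟨τ, hτ⟩ := exists_wf0_eq X₀ (B i)
    rw [hτ]
    have e1 : ∑ j, dist (X₀ (σ i)) (X₀ j) = ∑ j, dist (X₀ (σ i)) (X₀ (τ j)) :=
      (Equiv.sum_comp τ (fun j => dist (X₀ (σ i)) (X₀ j))).symm
    have e2 : (k : ℝ) * dist (X₀ (σ i)) (U i) = ∑ _j : Fin k, dist (X₀ (σ i)) (U i) := by simp
    rw [e1, e2]
    unfold sd mv
    rw [← Finset.sum_add_distrib, ← Finset.sum_add_distrib]
    refine Finset.sum_le_sum fun j _ => ?_
    have t1 := dist_triangle (U i) (X₀ (σ i)) (B i j)
    have t2 := dist_triangle (X₀ (σ i)) (X₀ (τ j)) (B i j)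
    have t3 : dist (U i) (X₀ (σ i)) = dist (X₀ (σ i)) (U i) := dist_comm _ _
    simp only [comp_apply]
    linarith
  have hsum : ∑ i, sd (U i) (B i) ≤
      k * wf0 X₀ U + addConst X₀ + ∑ i, wf0 X₀ (B i) := by
    have := Finset.sum_le_sum fun i (_ : i ∈ Finset.univ) => hterm i
    rw [Finset.sum_add_distrib, Finset.sum_add_distrib, ← Finset.mul_sum] at this
    have e3 : ∑ i, dist (X₀ (σ i)) (U i) = wf0 X₀ U := by rw [hσ]; rfl
    have e4 : ∑ i, ∑ j, dist (X₀ (σ i)) (X₀ j) = addConst X₀ :=
      Equiv.sum_comp σ (fun i => ∑ j, dist (X₀ i) (X₀ j))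
    rw [e3, e4] at this
    exact this
  rw [Finset.sum_sub_distrib]
  linarith

omit [NeZero k] in
lemma IsPot.unique {P : Set M} {w : (Fin k → M) → ℝ} {v v' : ℝ} (hv : IsPot P w v)
    (hv' : IsPot P w v') : v = v' := by
  obtain ⟨⟨U, B, hU, hB, h⟩, hmin⟩ := hv
  obtain ⟨⟨U', B', hU', hB', h'⟩, hmin'⟩ := hv'
  apply le_antisymm
  · rw [← h']; exact hmin U' B' hU' hB'
  · rw [← h]; exact hmin' U B hU hB

lemma wfa_mem {P : Set M} {X₀ : Fin k → M} (hX₀ : ∀ i, X₀ i ∈ P) :
    ∀ h : List M, (∀ r ∈ h, r ∈ P) → ∀ i, wfa X₀ h i ∈ P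
  | [], _ => hX₀
  | r :: h, hh => update_mem (wfa_mem hX₀ h fun s hs => hh s (List.mem_cons_of_mem _ hs)) _
      (hh r List.mem_cons_self)

lemma cost_pot {P : Set M} (hP : P.Finite) {X₀ : Fin k → M} (hX₀ : ∀ i, X₀ i ∈ P)
    {v₀ : ℝ} (hv₀ : IsPot P (wf0 X₀) v₀) : ∀ h : List M, (∀ r ∈ h, r ∈ P) →
    ∀ v, IsPot P (wf X₀ h) v → wfaCost X₀ h + wf X₀ h (wfa X₀ h) ≤ v - v₀
  | [], _, v, hv => by
    have h1 : v = v₀ := hv.unique hv₀
    have h2 : wf X₀ [] (wfa X₀ []) ≤ 0 := wf_le_of_sched (Sched.nil)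
    have h3 : wfaCost X₀ [] = 0 := rfl
    rw [h1, h3]
    linarith
  | r :: h, hh, v, hv => by
    have hne : P.Nonempty := ⟨_, hX₀ 0⟩
    obtain ⟨v', hv'⟩ := exists_isPot hP hne (wf X₀ h)
    have ih := cost_pot hP hX₀ hv₀ h (fun s hs => hh s (List.mem_cons_of_mem _ hs)) v' hv'
    have hw := isWF_wf X₀ h
    have hstep := pot_step hP hne hw (hh r List.mem_cons_self) hv' hv (wfa X₀ h)
      (wfa_mem hX₀ h fun s hs => hh s (List.mem_cons_of_mem _ hs))
    have hspec := serve_spec hw r (wfa X₀ h)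
    have hmv : mv (wfa X₀ h) (wfa X₀ (r :: h)) =
        dist (wfa X₀ h (serve (wf X₀ h) r (wfa X₀ h))) r := mv_update _ _ _
    have hwf : wf X₀ (r :: h) (wfa X₀ (r :: h)) =
        wf X₀ h (update (wfa X₀ h) (serve (wf X₀ h) r (wfa X₀ h)) r) :=
      hw.upd_of_mem (update_self _ _ _)
    have hcost : wfaCost X₀ (r :: h) =
      wfaCost X₀ h + mv (wfa X₀ h) (wfa X₀ (r :: h)) := rfl
    rw [hcost, hmv, hwf]
    linarith

/-- The main bound on the cost of the work function algorithm. -/
lemma wfaCost_le (X₀ : Fin k → M) (h : List M) (Z : Fin k → M) :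
    wfaCost X₀ h + wf X₀ h (wfa X₀ h) ≤ 2 * k * wf X₀ h Z + addConst X₀ := by
  classical
  set P : Set M := Set.range X₀ ∪ Set.range Z ∪ {r | r ∈ h} with hPdef
  have hP : P.Finite :=
    ((Set.finite_range X₀).union (Set.finite_range Z)).union (List.finite_toSet h)
  have hX₀ : ∀ i, X₀ i ∈ P := fun i => Or.inl (Or.inl ⟨i, rfl⟩)
  have hZ : ∀ i, Z i ∈ P := fun i => Or.inl (Or.inr ⟨i, rfl⟩)
  have hh : ∀ r ∈ h, r ∈ P := fun r hr => Or.inr hr
  have hne : P.Nonempty := ⟨_, hX₀ 0⟩
  obtain ⟨v₀, hv₀⟩ := exists_isPot hP hne (wf0 X₀)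
  obtain ⟨v, hv⟩ := exists_isPot hP hne (wf X₀ h)
  have h1 := cost_pot hP hX₀ hv₀ h hh v hv
  have h2 := le_pot_init X₀ hv₀
  have h3 := hv.2 Z (fun _ => Z) hZ (fun _ => hZ)
  have h4 : val (wf X₀ h) Z (fun _ => Z) ≤ 2 * k * wf X₀ h Z := by
    unfold val
    have : ∑ i : Fin k, (wf X₀ h Z - sd (Z i) Z) ≤ ∑ _i : Fin k, wf X₀ h Z :=
      Finset.sum_le_sum fun i _ => by
        have := sd_nonneg (Z i) Z; linarith
    simp only [Finset.sum_const, Finset.card_univ, Fintype.card_fin, nsmul_eq_mul] at this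
    linarith
  linarith

/-- The work function algorithm is `(2k-1)`-competitive (Koutsoupias and Papadimitriou). -/
theorem wfa_competitive (X₀ : Fin k → M) (h : List M) (Z : Fin k → M) (c : ℝ)
    (hs : Sched X₀ h Z c) : wfaCost X₀ h ≤ (2 * k - 1) * c + addConst X₀ := by
  obtain ⟨Z', c', π, hs', hle⟩ := exists_sched X₀ h (wfa X₀ h)
  have hc' : c' ≤ wf X₀ h (wfa X₀ h) := by
    have := mv_nonneg Z' (wfa X₀ h ∘ π)
    linarith
  have hk : (1 : ℝ) ≤ k := by
    have := NeZero.one_le (n := k)
    exact_mod_cast this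
  rcases le_total c c' with hcc | hcc
  · have h1 := wfaCost_le X₀ h Z
    have h2 := wf_le_of_sched hs
    nlinarith
  · have h1 := wfaCost_le X₀ h Z'
    have h2 := wf_le_of_sched hs'
    nlinarith

lemma wfa_serves (X₀ : Fin k → M) (r : M) (h : List M) : ∃ i, wfa X₀ (r :: h) i = r :=
  ⟨_, update_self _ _ _⟩

end algorithm

end Pool.Agent.Helper91.KServer
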